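import Pool.Agent.Q286.PG.Stm
import Pool.Agent.Helper242.KK.Gam1

/-! # Project PRG: the completed L-function decays exponentially on the line -/

set_option autoImplicit false
set_option maxHeartbeats 2000000

open Complex Filter Topology Set MeasureTheory Metric
open scoped ComplexConjugate

namespace Pool.Agent.Q77.PG

open Pool.Agent
open Pool.Agent.Y23.G
open H353.E (gaf)

variable [L : Y23.G.LFun]

/-- exponential decay on the line `Re s = 5 / 2` -/
lemma X_far : ∃ C : ℝ, 0 < C ∧ ∀ w : ℂ, w.re = 2 → ‖L.X (1 / 2 + w)‖ ≤ C * Real.exp (-(1 / 4 * |w.im|)) := by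
  have hm := L.raw.hm
  have hN1 := L.raw.hN
  have hN0 : 0 < L.N := by linarith
  have hsum : LSeriesSummable L.b (5 / 2) := (L.raw.coef (s := (5 / 2 : ℂ)) (by
    have : (5 / 2 : ℂ).re = 5 / 2 := by norm_num
    rw [this]; norm_num)).1
  set B0 : ℝ := ∑' n, ‖LSeries.term L.b (5 / 2) n‖ with hB0
  have hB00 : 0 ≤ B0 := tsum_nonneg fun _ => norm_nonneg _
  -- one Gamma factor
  have hcos : 0 < Real.cos 1 := Real.cos_one_pos
  have hfac : ∀ j : Fin L.m, ∃ c : ℝ, 0 < c ∧ ∀ w : ℂ, w.re = 2 → ‖Gammaℝ (1 / 2 + w - -L.a j)‖ ≤ c * Real.exp (-(1 / 2 * |w.im|)) := by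
    intro j
    have hstr := L.str j
    set σ : ℝ := (5 / 2 + (L.a j).re) / 2 with hσ
    have hσ0 : 0 < σ := by rw [hσ]; linarith
    have hG0 : 0 < Real.Gamma σ := Real.Gamma_pos_of_pos hσ0
    refine ⟨Real.pi ^ (-σ) * (Real.exp (1 / 2 * |(L.a j).im|) * Real.Gamma σ / Real.cos 1 ^ σ), by positivity, fun w hw => ?_⟩
    rw [sub_neg_eq_add, Complex.Gammaℝ_def, norm_mul]
    have e1 : ‖(Real.pi : ℂ) ^ (-(1 / 2 + w + L.a j) / 2)‖ = Real.pi ^ (-σ) := by
      rw [Complex.norm_cpow_eq_rpow_re_of_pos Real.pi_pos]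
      congr 1
      rw [show (2 : ℂ) = ((2 : ℝ) : ℂ) by norm_num, Complex.div_ofReal_re, neg_re, add_re, add_re, hw, hσ]
      norm_num
      ring
    have e2 : (1 / 2 + w + L.a j) / 2 = (σ : ℂ) + (((w.im + (L.a j).im) / 2 : ℝ) : ℂ) * I := by
      apply Complex.ext
      · rw [show (2 : ℂ) = ((2 : ℝ) : ℂ) by norm_num, Complex.div_ofReal_re, add_re, add_re, hw]
        simp [hσ]
        norm_num
      · rw [show (2 : ℂ) = ((2 : ℝ) : ℂ) by norm_num, Complex.div_ofReal_im, add_im, add_im]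
        simp
    have e3 := Helper242.KK.norm_Gamma_le_of_angle (v := (w.im + (L.a j).im) / 2) hσ0 zero_le_one
      (by have := Real.pi_gt_three; linarith)
    rw [e1, e2, mul_assoc]
    refine mul_le_mul_of_nonneg_left (e3.trans ?_) (by positivity)
    have e4 : Real.exp (-1 * |(w.im + (L.a j).im) / 2|) ≤ Real.exp (1 / 2 * |(L.a j).im|) * Real.exp (-(1 / 2 * |w.im|)) := by
      rw [← Real.exp_add]
      apply Real.exp_le_exp.2
      rw [abs_div, abs_two]
      have h6 := abs_add_le (w.im + (L.a j).im) (-(L.a j).im)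
      rw [add_neg_cancel_right, abs_neg] at h6
      linarith
    calc Real.exp (-1 * |(w.im + (L.a j).im) / 2|) * Real.Gamma σ / Real.cos 1 ^ σ ≤
          Real.exp (1 / 2 * |(L.a j).im|) * Real.exp (-(1 / 2 * |w.im|)) * Real.Gamma σ / Real.cos 1 ^ σ := by gcongr
      _ = _ := by ring
  choose c hc hcb using hfac
  -- powers against exponentials
  have hpow : ∀ x : ℝ, 0 ≤ x → (1 + x) ^ 2 ≤ 66 * Real.exp (1 / 4 * x) := by
    intro x hx
    have h1 := Real.quadratic_le_exp_of_nonneg (x := 1 / 4 * x) (by positivity)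
    nlinarith
  refine ⟨L.N ^ (5 / 4 : ℝ) * (∏ j, c j) * (9 * 66) ^ L.m * (B0 + 1), by
    have : 0 < ∏ j, c j := Finset.prod_pos fun j _ => hc j
    positivity, fun w hw => ?_⟩
  have hP0 : 0 < ∏ j, c j := Finset.prod_pos fun j _ => hc j
  set s : ℂ := 1 / 2 + w with hs
  have hsre : s.re = 5 / 2 := by rw [hs, add_re, hw]; norm_num
  have hL1 : ‖LSeries L.b s‖ ≤ B0 := by
    have h3 : ∀ n, ‖LSeries.term L.b s n‖ ≤ ‖LSeries.term L.b (5 / 2) n‖ := fun n =>
      LSeries.norm_term_le_of_re_le_re L.b (by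
        have : (5 / 2 : ℂ).re = 5 / 2 := by norm_num
        rw [this, hsre]) n
    have h4 : Summable fun n => ‖LSeries.term L.b (5 / 2) n‖ := hsum.norm
    have h5 : Summable fun n => ‖LSeries.term L.b s n‖ :=
      Summable.of_nonneg_of_le (fun _ => norm_nonneg _) h3 h4
    unfold LSeries
    exact (norm_tsum_le_tsum_norm h5).trans (h5.tsum_le_tsum h3 h4)
  have hgam : ‖∏ j, Gammaℝ (s - -L.a j)‖ ≤ (∏ j, c j) * Real.exp (-(1 / 2 * |w.im|)) ^ L.m := by
    rw [norm_prod]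
    refine (Finset.prod_le_prod (fun j _ => norm_nonneg _) fun j _ => hcb j w hw).trans (le_of_eq ?_)
    rw [Finset.prod_mul_distrib, Finset.prod_const, Finset.card_univ, Fintype.card_fin]
  have hNn : ‖(L.N : ℂ) ^ (s / 2)‖ ≤ L.N ^ (5 / 4 : ℝ) := by
    rw [Complex.norm_cpow_eq_rpow_re_of_pos hN0]
    refine Real.rpow_le_rpow_of_exponent_le hN1 ?_
    have e : (s / 2).re = 5 / 4 := by
      rw [show (2 : ℂ) = ((2 : ℝ) : ℂ) by norm_num, Complex.div_ofReal_re, hsre]; norm_num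
    rw [e]
  have hy := abs_nonneg w.im
  have hnw : ‖w‖ ≤ 2 + |w.im| := by
    have := Complex.norm_le_abs_re_add_abs_im w
    rwa [hw, abs_two] at this
  have h1 : ‖s‖ ≤ 3 * (1 + |w.im|) := by
    have h2 : ‖s‖ ≤ 1 / 2 + ‖w‖ := by
      rw [hs]
      refine (norm_add_le _ _).trans ?_
      norm_num
    linarith
  have h2 : ‖s - 1‖ ≤ 3 * (1 + |w.im|) := by
    have h2 : ‖s - 1‖ ≤ 1 / 2 + ‖w‖ := by
      have : s - 1 = -(1 / 2) + w := by rw [hs]; ring
      rw [this]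
      refine (norm_add_le _ _).trans ?_
      norm_num
    linarith
  have hss : ‖(s * (s - 1)) ^ L.r‖ ≤ (9 * (1 + |w.im|) ^ 2) ^ L.m := by
    rw [norm_pow, norm_mul]
    have h3 : ‖s‖ * ‖s - 1‖ ≤ 9 * (1 + |w.im|) ^ 2 := by
      calc ‖s‖ * ‖s - 1‖ ≤ (3 * (1 + |w.im|)) * (3 * (1 + |w.im|)) := by gcongr
        _ = _ := by ring
    have h4 : 1 ≤ 9 * (1 + |w.im|) ^ 2 := by nlinarith
    calc (‖s‖ * ‖s - 1‖) ^ L.r ≤ (9 * (1 + |w.im|) ^ 2) ^ L.r := by gcongr
      _ ≤ _ := pow_le_pow_right₀ h4 L.raw.hr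
  rw [show L.X s = gaf L.N (fun j => -L.a j) s * ((s * (s - 1)) ^ L.r * LSeries L.b s) from
    L.raw.eq' (by rw [hsre]; norm_num)]
  unfold gaf
  rw [norm_mul, norm_mul, norm_mul]
  have h5 : Real.exp (-(1 / 2 * |w.im|)) ^ L.m * (9 * (1 + |w.im|) ^ 2) ^ L.m ≤ (9 * 66) ^ L.m * Real.exp (-(1 / 4 * |w.im|)) := by
    have h6 : Real.exp (-(1 / 2 * |w.im|)) * (9 * (1 + |w.im|) ^ 2) ≤ 9 * 66 * Real.exp (-(1 / 4 * |w.im|)) := by
      have h7 := mul_le_mul_of_nonneg_left (hpow |w.im| hy) (Real.exp_pos (-(1 / 2 * |w.im|))).le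
      have h8 : Real.exp (-(1 / 2 * |w.im|)) * (66 * Real.exp (1 / 4 * |w.im|)) = 66 * Real.exp (-(1 / 4 * |w.im|)) := by
        rw [mul_left_comm, ← Real.exp_add]; congr 2; ring
      rw [h8] at h7
      linarith
    have h9 : Real.exp (-(1 / 4 * |w.im|)) ≤ 1 := by
      rw [Real.exp_le_one_iff]; linarith
    calc _ = (Real.exp (-(1 / 2 * |w.im|)) * (9 * (1 + |w.im|) ^ 2)) ^ L.m := (mul_pow _ _ _).symm
      _ ≤ (9 * 66 * Real.exp (-(1 / 4 * |w.im|))) ^ L.m := by gcongr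
      _ = (9 * 66) ^ L.m * Real.exp (-(1 / 4 * |w.im|)) ^ L.m := by rw [mul_pow]
      _ ≤ (9 * 66) ^ L.m * Real.exp (-(1 / 4 * |w.im|)) ^ 1 := by
          refine mul_le_mul_of_nonneg_left ?_ (by positivity)
          exact pow_le_pow_of_le_one (Real.exp_pos _).le h9 hm
      _ = _ := by rw [pow_one]
  calc ‖(L.N : ℂ) ^ (s / 2)‖ * ‖∏ j, Gammaℝ (s - -L.a j)‖ * (‖(s * (s - 1)) ^ L.r‖ * ‖LSeries L.b s‖)
      ≤ L.N ^ (5 / 4 : ℝ) * ((∏ j, c j) * Real.exp (-(1 / 2 * |w.im|)) ^ L.m) * ((9 * (1 + |w.im|) ^ 2) ^ L.m * (B0 + 1)) := by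
        have hL2 : ‖LSeries L.b s‖ ≤ B0 + 1 := by linarith
        gcongr
    _ = L.N ^ (5 / 4 : ℝ) * (∏ j, c j) * (B0 + 1) * (Real.exp (-(1 / 2 * |w.im|)) ^ L.m * (9 * (1 + |w.im|) ^ 2) ^ L.m) := by ring
    _ ≤ L.N ^ (5 / 4 : ℝ) * (∏ j, c j) * (B0 + 1) * ((9 * 66) ^ L.m * Real.exp (-(1 / 4 * |w.im|))) := by gcongr
    _ = _ := by ring

/-- exponential decay in the strip -/
lemma X_decay : ∃ C : ℝ, 0 < C ∧ ∀ w : ℂ, |w.re| ≤ 2 → ‖L.X (1 / 2 + w)‖ ≤ C * Real.exp (-(1 / 4 * |w.im|)) := by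
  obtain ⟨C, hC, hfar⟩ := X_far (L := L)
  obtain ⟨A, hA, hXb⟩ := X_all (L := L)
  have hedge : ∀ w : ℂ, |w.re| = 2 → ‖L.X (1 / 2 + w)‖ ≤ C * Real.exp (-(1 / 4 * |w.im|)) := by
    intro w hw
    rcases le_total 0 w.re with h | h
    · rw [abs_of_nonneg h] at hw
      exact hfar w hw
    · rw [abs_of_nonpos h] at hw
      rw [X_reflect]
      have h1 := hfar (-conj w) (by simpa using hw)
      simpa using h1
  obtain ⟨M, hM⟩ : ∃ M : ℝ, ∀ t ∈ Icc (0 : ℝ) 2, Real.exp (Ex A t) ≤ M := by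
    have hcont : ContinuousOn (fun t : ℝ => Real.exp (Ex A t)) (Icc 0 2) := by
      unfold Ex
      refine Real.continuous_exp.comp_continuousOn ?_
      refine ContinuousOn.add (ContinuousOn.add continuousOn_const (ContinuousOn.mul continuousOn_const ?_)) ?_
      · refine ContinuousOn.log (by fun_prop) fun t ht => ?_
        have := ht.1
        linarith
      · refine Continuous.continuousOn ?_
        have h1 : (fun t : ℝ => (L.m : ℝ) / 2 * (t * (Real.log t - kp))) = fun t : ℝ => (L.m : ℝ) / 2 * (t * Real.log t - t * kp) := by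
          funext t; ring
        rw [h1]
        exact continuous_const.mul (Real.continuous_mul_log.sub (by fun_prop))
    obtain ⟨M, hM⟩ := isCompact_Icc.exists_bound_of_continuousOn hcont
    exact ⟨M, fun t ht => (le_abs_self _).trans (hM t ht)⟩
  have hM0 : 0 ≤ M := (Real.exp_pos _).le.trans (hM 0 ⟨le_rfl, by norm_num⟩)
  -- one sign
  have key : ∀ ς : ℝ, |ς| = 1 / 4 → ∀ w : ℂ, |w.re| ≤ 2 → ‖L.X (1 / 2 + w)‖ * Real.exp (ς * w.im) ≤ C := by
    intro ς hς w hw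
    set f : ℂ → ℂ := fun z => L.X (1 / 2 + z) * cexp (-(ς * I * z)) with hf
    have hfn : ∀ z, ‖f z‖ = ‖L.X (1 / 2 + z)‖ * Real.exp (ς * z.im) := by
      intro z
      simp only [hf]
      rw [norm_mul, Complex.norm_exp]
      congr 2
      simp
    have hfd : Differentiable ℂ f := by
      have : Differentiable ℂ (fun z : ℂ => L.X (1 / 2 + z)) := Xd.comp (by fun_prop)
      exact this.mul (by fun_prop)
    have hle : ∀ y : ℝ, ς * y ≤ 1 / 4 * |y| := by
      intro y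
      calc ς * y ≤ |ς * y| := le_abs_self _
        _ = _ := by rw [abs_mul, hς]
    have hed : ∀ z : ℂ, |z.re| = 2 → ‖f z‖ ≤ C := by
      intro z hz
      rw [hfn]
      calc ‖L.X (1 / 2 + z)‖ * Real.exp (ς * z.im) ≤ (C * Real.exp (-(1 / 4 * |z.im|))) * Real.exp (1 / 4 * |z.im|) := by
            exact mul_le_mul (hedge z hz) (Real.exp_le_exp.2 (hle _)) (Real.exp_pos _).le (by positivity)
        _ = C := by rw [mul_assoc, ← Real.exp_add, neg_add_cancel, Real.exp_zero, mul_one]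
    have hPL := PhragmenLindelof.vertical_strip (a := -2) (b := 2) (f := f) (C := C) (z := w)
      hfd.diffContOnCl ?_ (fun z hz => hed z (by rw [hz]; norm_num)) (fun z hz => hed z (by rw [hz]; norm_num))
      (abs_le.1 hw).1 (abs_le.1 hw).2
    · rwa [hfn] at hPL
    · refine ⟨1 / 2, by
        have := Real.pi_gt_three
        linarith, 1, ?_⟩
      refine Asymptotics.IsBigO.of_bound M ?_
      refine (Filter.Eventually.filter_mono inf_le_right ?_)
      rw [Filter.eventually_principal]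
      intro z hz
      have hz1 : -2 < z.re ∧ z.re < 2 := hz
      have hz2 : |z.re| ≤ 2 := (abs_lt.2 hz1).le
      rw [hfn, Real.norm_eq_abs, abs_of_pos (Real.exp_pos _)]
      have h1 : ‖L.X (1 / 2 + z)‖ ≤ M := by
        refine (hXb z).trans ?_
        refine (div_le_self (Real.exp_pos _).le (by nlinarith [sq_nonneg z.im])).trans ?_
        exact hM |z.re| ⟨abs_nonneg _, hz2⟩
      refine mul_le_mul h1 (Real.exp_le_exp.2 ?_) (Real.exp_pos _).le hM0
      have h2 := hle z.im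
      have h3 := Real.add_one_le_exp (1 / 2 * |z.im|)
      have h4 := abs_nonneg z.im
      linarith
  refine ⟨C, hC, fun w hw => ?_⟩
  obtain ⟨ς, h1, h2⟩ : ∃ ς : ℝ, |ς| = 1 / 4 ∧ ς * w.im = 1 / 4 * |w.im| := by
    rcases le_total 0 w.im with h | h
    · exact ⟨1 / 4, abs_of_pos (by norm_num), by rw [abs_of_nonneg h]⟩
    · exact ⟨-(1 / 4), by rw [abs_neg]; exact abs_of_pos (by norm_num), by rw [abs_of_nonpos h]; ring⟩
  have h3 := key ς h1 w hw
  rw [h2] at h3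
  rw [Real.exp_neg, ← div_eq_mul_inv, le_div_iff₀ (Real.exp_pos _)]
  exact h3

omit L in
/-- **job PG-DEC** -/
theorem decG : Q286.PG.S_DecG := by
  intro L
  refine ⟨(Xd (L := L)).comp (by fun_prop), ?_, ?_⟩
  · obtain ⟨w, -, h⟩ := exists_nonzero (L := L)
    exact ⟨w, h⟩
  · obtain ⟨C, -, h⟩ := X_decay (L := L)
    refine ⟨C, 1 / 4, by norm_num, fun v => ?_⟩
    have h1 := h (v * I) (by simp)
    have e : ((v : ℂ) * I).im = v := by simp
    rwa [e] at h1

end Pool.Agent.Q77.PG
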